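import Pool.Agent.Helper70.MM.Goals2

/-!
# Necessary condition for cubes (packet MM-CNEC)
-/

open MeasureTheory Set Metric Filter
open scoped ENNReal RealInnerProductSpace Topology
open Pool.Agent.Results.MP_91ee6f_gt Pool.Agent.Helper70.MM

namespace Pool.Agent.Helper62.MM

variable {n : ℕ}

theorem dist_out (ℓ t : ℝ) (i0 : Fin n) (T : Finset (Fin n)) (hT : i0 ∉ T) :
    dist (EuclideanSpace.single i0 t : En n) (vert n ℓ T) = Real.sqrt (T.card * ℓ ^ 2 + t ^ 2) := by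
  rw [EuclideanSpace.dist_eq]
  congr 1
  have h : ∀ i : Fin n, dist ((EuclideanSpace.single i0 t : En n) i) ((vert n ℓ T) i) ^ 2 =
      (if i ∈ T then ℓ ^ 2 else 0) + (if i = i0 then t ^ 2 else 0) := by
    intro i
    rw [Real.dist_eq, sq_abs]
    show ((EuclideanSpace.single i0 t : En n) i - (if i ∈ T then ℓ else 0)) ^ 2 = _
    rw [PiLp.single_apply]
    by_cases h1 : i = i0
    · subst h1
      simp [hT]
    · by_cases h2 : i ∈ T
      · simp [h1, h2]
      · simp [h1, h2]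
  rw [Finset.sum_congr rfl fun i _ => h i, Finset.sum_add_distrib, Finset.sum_ite_mem,
    Finset.univ_inter, Finset.sum_const, Finset.sum_ite_eq' Finset.univ i0 (fun _ => t ^ 2),
    if_pos (Finset.mem_univ i0), nsmul_eq_mul]

theorem dist_in (ℓ t : ℝ) (i0 : Fin n) (T : Finset (Fin n)) (hT : i0 ∉ T) :
    dist (EuclideanSpace.single i0 t : En n) (vert n ℓ (insert i0 T)) =
      Real.sqrt (T.card * ℓ ^ 2 + (ℓ - t) ^ 2) := by
  rw [EuclideanSpace.dist_eq]
  congr 1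
  have h : ∀ i : Fin n,
      dist ((EuclideanSpace.single i0 t : En n) i) ((vert n ℓ (insert i0 T)) i) ^ 2 =
      (if i ∈ T then ℓ ^ 2 else 0) + (if i = i0 then (ℓ - t) ^ 2 else 0) := by
    intro i
    rw [Real.dist_eq, sq_abs]
    show ((EuclideanSpace.single i0 t : En n) i - (if i ∈ insert i0 T then ℓ else 0)) ^ 2 = _
    rw [PiLp.single_apply]
    by_cases h1 : i = i0
    · subst h1
      simp only [if_true, Finset.mem_insert_self, hT, if_false, zero_add]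
      ring
    · by_cases h2 : i ∈ T
      · simp [h1, h2]
      · simp [h1, h2]
  rw [Finset.sum_congr rfl fun i _ => h i, Finset.sum_add_distrib, Finset.sum_ite_mem,
    Finset.univ_inter, Finset.sum_const, Finset.sum_ite_eq' Finset.univ i0 (fun _ => (ℓ - t) ^ 2),
    if_pos (Finset.mem_univ i0), nsmul_eq_mul]

/-- `PV` on the edge. -/
theorem PV_edge (hn : 1 ≤ n) (ℓ t : ℝ) (i0 : Fin n) :
    PV n ℓ (EuclideanSpace.single i0 t) = ∑ m ∈ Finset.range n, ((n - 1).choose m : ℝ) *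
      (Real.exp (-Real.sqrt (m * ℓ ^ 2 + t ^ 2)) +
        Real.exp (-Real.sqrt (m * ℓ ^ 2 + (ℓ - t) ^ 2))) := by
  unfold PV
  have h1 : (Finset.univ : Finset (Finset (Fin n))) =
      (insert i0 (Finset.univ.erase i0)).powerset := by
    rw [Finset.insert_erase (Finset.mem_univ i0)]
    exact Finset.powerset_univ.symm
  rw [h1, Finset.sum_powerset_insert (Finset.notMem_erase i0 _), ← Finset.sum_add_distrib]
  have h2 : ∀ T ∈ (Finset.univ.erase i0).powerset,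
      Real.exp (-dist (EuclideanSpace.single i0 t : En n) (vert n ℓ T)) +
        Real.exp (-dist (EuclideanSpace.single i0 t : En n) (vert n ℓ (insert i0 T))) =
      (fun m : ℕ => Real.exp (-Real.sqrt (m * ℓ ^ 2 + t ^ 2)) +
        Real.exp (-Real.sqrt (m * ℓ ^ 2 + (ℓ - t) ^ 2))) T.card := by
    intro T hT
    have hT' : i0 ∉ T := fun h => Finset.notMem_erase i0 _ (Finset.mem_powerset.1 hT h)
    rw [dist_out ℓ t i0 T hT', dist_in ℓ t i0 T hT']
  rw [Finset.sum_congr rfl h2, Finset.sum_powerset_apply_card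
    (fun m : ℕ => Real.exp (-Real.sqrt (m * ℓ ^ 2 + t ^ 2)) +
        Real.exp (-Real.sqrt (m * ℓ ^ 2 + (ℓ - t) ^ 2)))]
  have h3 : (Finset.univ.erase i0).card = n - 1 := by
    rw [Finset.card_erase_of_mem (Finset.mem_univ i0), Finset.card_univ, Fintype.card_fin]
  rw [h3, show n - 1 + 1 = n by omega]
  refine Finset.sum_congr rfl fun m _ => ?_
  rw [nsmul_eq_mul]

/-- First part of the summand, smooth version. -/
noncomputable def phi (ℓ : ℝ) (m : ℕ) (t : ℝ) : ℝ :=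
  if m = 0 then Real.exp (-t) else Real.exp (-Real.sqrt (m * ℓ ^ 2 + t ^ 2))

theorem phi_eq (ℓ : ℝ) (m : ℕ) {t : ℝ} (ht : 0 ≤ t) :
    Real.exp (-Real.sqrt (m * ℓ ^ 2 + t ^ 2)) = phi ℓ m t := by
  unfold phi
  split_ifs with h
  · subst h
    rw [Nat.cast_zero, zero_mul, zero_add, Real.sqrt_sq ht]
  · rfl

theorem phi_deriv {ℓ : ℝ} (hℓ : 0 < ℓ) (m : ℕ) :
    HasDerivAt (phi ℓ m) (if m = 0 then -1 else 0) 0 := by
  by_cases h : m = 0
  · subst h
    simp only [if_true]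
    have : phi ℓ 0 = fun t => Real.exp (-t) := by
      ext t; simp [phi]
    rw [this]
    have h1 : HasDerivAt (fun t : ℝ => -t) (-1) 0 := (hasDerivAt_id' (0 : ℝ)).neg
    have := h1.exp
    simpa using this
  · rw [if_neg h]
    have : phi ℓ m = fun t => Real.exp (-Real.sqrt (m * ℓ ^ 2 + t ^ 2)) := by
      ext t; simp [phi, h]
    rw [this]
    have h1 : HasDerivAt (fun t : ℝ => (m : ℝ) * ℓ ^ 2 + t ^ 2) (0 : ℝ) 0 := by
      have := ((hasDerivAt_id' (0 : ℝ)).pow 2).const_add ((m : ℝ) * ℓ ^ 2)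
      simpa using this
    have hm : (0 : ℝ) < m := by exact_mod_cast Nat.pos_of_ne_zero h
    have h2 := (h1.sqrt (by positivity)).neg.exp
    simpa using h2

theorem psi_deriv {ℓ : ℝ} (hℓ : 0 < ℓ) (m : ℕ) :
    HasDerivAt (fun t : ℝ => Real.exp (-Real.sqrt (m * ℓ ^ 2 + (ℓ - t) ^ 2)))
      (Real.exp (-(Real.sqrt (m + 1) * ℓ)) / Real.sqrt (m + 1)) 0 := by
  have h1 : HasDerivAt (fun t : ℝ => (m : ℝ) * ℓ ^ 2 + (ℓ - t) ^ 2) (-(2 * ℓ)) 0 := by
    have h0 : HasDerivAt (fun t : ℝ => ℓ - t) (-1) 0 := by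
      simpa using (hasDerivAt_id' (0 : ℝ)).const_sub ℓ
    have := (h0.pow 2).const_add ((m : ℝ) * ℓ ^ 2)
    simpa using this
  have hpos : (0 : ℝ) < (m : ℝ) * ℓ ^ 2 + (ℓ - 0) ^ 2 := by
    rw [sub_zero]; positivity
  have h2 : HasDerivAt (fun t : ℝ => Real.exp (-Real.sqrt (m * ℓ ^ 2 + (ℓ - t) ^ 2)))
      (Real.exp (-Real.sqrt (m * ℓ ^ 2 + (ℓ - 0) ^ 2)) *
        -(-(2 * ℓ) / (2 * Real.sqrt (m * ℓ ^ 2 + (ℓ - 0) ^ 2)))) 0 :=
    (h1.sqrt hpos.ne').neg.exp
  have e : Real.sqrt ((m : ℝ) * ℓ ^ 2 + (ℓ - 0) ^ 2) = Real.sqrt (m + 1) * ℓ := by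
    rw [sub_zero, show (m : ℝ) * ℓ ^ 2 + ℓ ^ 2 = ((m : ℝ) + 1) * ℓ ^ 2 by ring,
      Real.sqrt_mul (by positivity), Real.sqrt_sq hℓ.le]
  rw [e] at h2
  convert h2 using 1
  have hs : 0 < Real.sqrt ((m : ℝ) + 1) := Real.sqrt_pos.2 (by positivity)
  field_simp

theorem cnec : CNEC := by
  intro n ℓ hn hℓ hmin
  set i0 : Fin n := ⟨0, by omega⟩ with hi0
  -- the function on the edge
  set H : ℝ → ℝ := fun t => ∑ m ∈ Finset.range n, ((n - 1).choose m : ℝ) *
      (phi ℓ m t + Real.exp (-Real.sqrt (m * ℓ ^ 2 + (ℓ - t) ^ 2))) with hH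
  have hPH : ∀ t, 0 ≤ t → PV n ℓ (EuclideanSpace.single i0 t) = H t := by
    intro t ht
    rw [PV_edge hn, hH]
    refine Finset.sum_congr rfl fun m _ => ?_
    rw [phi_eq ℓ m ht]
  have hmin' : ∀ t, 0 ≤ t → t ≤ ℓ → H 0 ≤ H t := by
    intro t ht htl
    rw [← hPH 0 le_rfl, ← hPH t ht]
    have h0 : (EuclideanSpace.single i0 (0 : ℝ) : En n) = 0 := by
      ext i
      rw [PiLp.single_apply]
      simp
    rw [h0]
    refine hmin _ fun i => ?_
    rw [PiLp.single_apply]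
    split_ifs
    · exact ⟨ht, htl⟩
    · exact ⟨le_rfl, hℓ.le⟩
  have hder : HasDerivAt H (∑ m ∈ Finset.range n, ((n - 1).choose m : ℝ) *
      ((if m = 0 then -1 else 0) + Real.exp (-(Real.sqrt (m + 1) * ℓ)) / Real.sqrt (m + 1))) 0 := by
    rw [hH]
    exact HasDerivAt.fun_sum (u := Finset.range n)
      (A := fun m t => ((n - 1).choose m : ℝ) *
        (phi ℓ m t + Real.exp (-Real.sqrt (m * ℓ ^ 2 + (ℓ - t) ^ 2))))
      (A' := fun m => ((n - 1).choose m : ℝ) *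
        ((if m = 0 then -1 else 0) + Real.exp (-(Real.sqrt (m + 1) * ℓ)) / Real.sqrt (m + 1)))
      (x := (0 : ℝ)) (fun m _ => ((phi_deriv hℓ m).add (psi_deriv hℓ m)).const_mul _)
  have hnonneg : 0 ≤ ∑ m ∈ Finset.range n, ((n - 1).choose m : ℝ) *
      ((if m = 0 then -1 else 0) + Real.exp (-(Real.sqrt (m + 1) * ℓ)) / Real.sqrt (m + 1)) := by
    have h1 := (hasDerivWithinAt_iff_tendsto_slope' (s := Ioi (0 : ℝ)) (by simp)).1
      hder.hasDerivWithinAt
    refine ge_of_tendsto h1 ?_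
    filter_upwards [Ioo_mem_nhdsGT hℓ] with t ht
    rw [slope_def_field, sub_zero]
    exact div_nonneg (sub_nonneg.2 (hmin' t ht.1.le ht.2.le)) ht.1.le
  have hsplit : ∑ m ∈ Finset.range n, ((n - 1).choose m : ℝ) *
      ((if m = 0 then -1 else 0) + Real.exp (-(Real.sqrt (m + 1) * ℓ)) / Real.sqrt (m + 1)) =
      -1 + ∑ m ∈ Finset.range n, ((n - 1).choose m : ℝ) *
        (Real.exp (-(Real.sqrt (m + 1) * ℓ)) / Real.sqrt (m + 1)) := by
    simp only [mul_add]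
    rw [Finset.sum_add_distrib]
    congr 1
    rw [Finset.sum_eq_single 0]
    · simp
    · intro b _ hb
      simp [hb]
    · intro h
      exact absurd (Finset.mem_range.2 (by omega)) h
  rw [hsplit] at hnonneg
  linarith

end Pool.Agent.Helper62.MM
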